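import Pool.Agent.Helper87.TW.Osc

/-!
# Packet GNI: near-integrable foliated twist maps have analytic leaves
-/

set_option autoImplicit false

namespace Pool.Agent.Helper87.TW

open Complex Set Metric Pool.Agent.Helper83.TW

/-- the strip -/
def Str (ρ : ℝ) : Set (ℂ × ℂ) := {p | |p.1.im| < ρ ∧ |p.2.im| < ρ}

theorem isOpen_Str (ρ : ℝ) : IsOpen (Str ρ) := by
  have h1 : IsOpen {p : ℂ × ℂ | |p.1.im| < ρ} :=
    isOpen_lt (continuous_abs.comp (continuous_im.comp continuous_fst)) continuous_const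
  have h4 : IsOpen {p : ℂ × ℂ | |p.2.im| < ρ} :=
    isOpen_lt (continuous_abs.comp (continuous_im.comp continuous_snd)) continuous_const
  exact h1.inter h4

theorem Str_real {ρ : ℝ} (hρ : 0 < ρ) (x Y : ℝ) : ((x : ℂ), (Y : ℂ)) ∈ Str ρ := by
  refine ⟨?_, ?_⟩
  · show |((x : ℝ) : ℂ).im| < ρ
    rw [ofReal_im, abs_zero]
    exact hρ
  · show |((Y : ℝ) : ℂ).im| < ρ
    rw [ofReal_im, abs_zero]
    exact hρ

/-- Lipschitz bound for a bounded function on the strip. -/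
theorem lip3 (hC : GCau) {F : ℂ × ℂ → ℂ} {ρ η : ℝ} (hρ0 : 0 < ρ)
    (hη : 10^6 * η ≤ ρ) (hF : DifferentiableOn ℂ F (Str ρ))
    (hB : ∀ p ∈ Str ρ, ‖F p‖ ≤ η) (x x' Y Y' : ℝ) :
    ‖F ((x' : ℂ), (Y' : ℂ)) - F ((x : ℂ), (Y : ℂ))‖ ≤ 1/100000 * (|x' - x| + |Y' - Y|) := by
  have hX : ‖F ((x' : ℂ), (Y' : ℂ)) - F ((x : ℂ), (Y' : ℂ))‖ ≤ η / (ρ/2) * |x' - x| := by
    have hmem : ∀ t : ℝ, ∀ z ∈ ball (t : ℂ) (ρ/2), (z, (Y' : ℂ)) ∈ Str ρ := by
      intro t z hz
      have := ball_re_im hz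
      refine ⟨?_, ?_⟩
      · show |z.im| < ρ
        linarith
      · show |((Y' : ℝ) : ℂ).im| < ρ
        rw [ofReal_im, abs_zero]
        exact hρ0
    exact lip hC (fun z => F (z, (Y' : ℂ))) univ convex_univ η (ρ/2) (by linarith)
      (fun t _ => ⟨hF.comp (by fun_prop) (fun z hz => hmem t z hz),
        fun z hz => hB _ (hmem t z hz)⟩) x (mem_univ _) x' (mem_univ _)
  have hYY : ‖F ((x : ℂ), (Y' : ℂ)) - F ((x : ℂ), (Y : ℂ))‖ ≤ η / (ρ/2) * |Y' - Y| := by
    have hmem : ∀ t : ℝ, ∀ z ∈ ball (t : ℂ) (ρ/2), ((x : ℂ), z) ∈ Str ρ := by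
      intro t z hz
      have := ball_re_im hz
      refine ⟨?_, ?_⟩
      · show |((x : ℝ) : ℂ).im| < ρ
        rw [ofReal_im, abs_zero]
        exact hρ0
      · show |z.im| < ρ
        linarith
    exact lip hC (fun z => F ((x : ℂ), z)) univ convex_univ η (ρ/2) (by linarith)
      (fun t _ => ⟨hF.comp (by fun_prop) (fun z hz => hmem t z hz),
        fun z hz => hB _ (hmem t z hz)⟩) Y (mem_univ _) Y' (mem_univ _)
  have e1 : η / (ρ/2) ≤ 1/100000 := by
    rw [div_le_iff₀ (by linarith)]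
    linarith
  have h5 : ‖F ((x' : ℂ), (Y' : ℂ)) - F ((x : ℂ), (Y : ℂ))‖ ≤
      ‖F ((x' : ℂ), (Y' : ℂ)) - F ((x : ℂ), (Y' : ℂ))‖
        + ‖F ((x : ℂ), (Y' : ℂ)) - F ((x : ℂ), (Y : ℂ))‖ := by
    have := norm_add_le (F ((x' : ℂ), (Y' : ℂ)) - F ((x : ℂ), (Y' : ℂ)))
      (F ((x : ℂ), (Y' : ℂ)) - F ((x : ℂ), (Y : ℂ)))
    rwa [sub_add_sub_cancel] at this
  have h6 := mul_le_mul_of_nonneg_right e1 (abs_nonneg (x' - x))
  have h7 := mul_le_mul_of_nonneg_right e1 (abs_nonneg (Y' - Y))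
  linarith

theorem inj_core {x x' Y Y' p p' q q' : ℝ} (h1 : x + Y + p = x' + Y' + p')
    (h2 : Y + q = Y' + q') (hp : |p' - p| ≤ 1/100000 * (|x' - x| + |Y' - Y|))
    (hq : |q' - q| ≤ 1/100000 * (|x' - x| + |Y' - Y|)) : x = x' := by
  have hY : |Y' - Y| ≤ 1/100000 * (|x' - x| + |Y' - Y|) := by
    have e : Y' - Y = -(q' - q) := by linarith
    calc |Y' - Y| = |q' - q| := by rw [e, abs_neg]
      _ ≤ _ := hq
  have hX : |x' - x| ≤ |Y' - Y| + 1/100000 * (|x' - x| + |Y' - Y|) := by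
    have e : x' - x = -((Y' - Y) + (p' - p)) := by linarith
    calc |x' - x| = |(Y' - Y) + (p' - p)| := by rw [e, abs_neg]
      _ ≤ |Y' - Y| + |p' - p| := abs_add_le _ _
      _ ≤ _ := by linarith
  have h0 : |x' - x| = 0 := le_antisymm (by linarith [abs_nonneg (Y' - Y)]) (abs_nonneg _)
  exact (sub_eq_zero.1 (abs_eq_zero.1 h0)).symm

theorem WG_sub_Str {ρ ρ' : ℝ} (h : ρ' ≤ ρ) (k : ℤ) {p : ℂ × ℂ} (hp : p ∈ WG ρ') :
    (p.1, p.2 + (k : ℂ)) ∈ Str ρ := by
  obtain ⟨h1, -, -, h4⟩ := hp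
  refine ⟨?_, ?_⟩
  · show |p.1.im| < ρ
    linarith
  · show |(p.2 + (k : ℂ)).im| < ρ
    rw [add_im, intCast_im, add_zero]
    linarith

theorem gNI (hW : GW) (hO : GOscG) (hD : GDetC) (hS : GSym) (hC : GCau) : GNI := by
  intro ρ hρ
  obtain ⟨A, hA⟩ := hW
  set r : ℝ := min ρ (1/4) with hr
  have hr0 : 0 < r := lt_min hρ (by norm_num)
  have hr1 : r ≤ 1/4 := min_le_right _ _
  have hrρ : r ≤ ρ := min_le_left _ _
  set η : ℝ := min (r/10^7) (r^A) with hη
  have hη0 : 0 < η := lt_min (by positivity) (by positivity)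
  have hη1 : η ≤ r/10^7 := min_le_left _ _
  have hηA : η ≤ r^A := min_le_right _ _
  have hη6 : 10^6 * η ≤ r := by
    have : r / 10^7 = r * (1/10^7) := by ring
    linarith
  have hη6' : 10^6 * η ≤ ρ := hη6.trans hrρ
  refine ⟨η, hη0, ?_⟩
  intro P Q hPd hQd hb hreal hdet u huc hup hui hun c0
  have hPd' : DifferentiableOn ℂ P (Str ρ) := hPd
  have hQd' : DifferentiableOn ℂ Q (Str ρ) := hQd
  have hPb : ∀ p ∈ Str ρ, ‖P p‖ ≤ η := fun p hp => (hb p hp.1 hp.2).1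
  have hQb : ∀ p ∈ Str ρ, ‖Q p‖ ≤ η := fun p hp => (hb p hp.1 hp.2).2.1
  have hPr : ∀ x y : ℝ, |(P ((x : ℂ), (y : ℂ))).re| ≤ η := fun x y =>
    (abs_re_le_norm _).trans (hPb _ (Str_real hρ x y))
  have hQr : ∀ x y : ℝ, |(Q ((x : ℂ), (y : ℂ))).re| ≤ η := fun x y =>
    (abs_re_le_norm _).trans (hQb _ (Str_real hρ x y))
  -- the circle maps
  have gcont : ∀ c, Continuous (fun x => (Gm P Q x (u c x)).1) := by
    intro c
    have h1 : Continuous (fun x : ℝ => P ((x : ℂ), (u c x : ℂ))) := by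
      refine hPd'.continuousOn.comp_continuous ?_ (fun x => Str_real hρ x _)
      exact continuous_ofReal.prodMk (continuous_ofReal.comp (huc c))
    exact (continuous_id.add (huc c)).add (continuous_re.comp h1)
  have gshift : ∀ c x, (Gm P Q (x + 1) (u c (x + 1))).1 = (Gm P Q x (u c x)).1 + 1 := by
    intro c x
    have h1 := (hb _ (Str_real hρ x (u c x)).1 (Str_real hρ x (u c x)).2).2.2.1
    show x + 1 + u c (x + 1) + (P (((x + 1 : ℝ) : ℂ), ((u c (x + 1) : ℝ) : ℂ))).re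
      = x + u c x + (P ((x : ℂ), (u c x : ℂ))).re + 1
    rw [hup c x]
    have h2 : (((x + 1 : ℝ) : ℂ), ((u c x : ℝ) : ℂ)) = ((x : ℂ) + 1, (u c x : ℂ)) := by
      push_cast
      rfl
    rw [h2, h1]
    ring
  have ginj : ∀ c, Function.Injective (fun x => (Gm P Q x (u c x)).1) := by
    intro c x x' hxx
    have hxx' : (Gm P Q x (u c x)).1 = (Gm P Q x' (u c x')).1 := hxx
    have h2 : (Gm P Q x (u c x)).2 = (Gm P Q x' (u c x')).2 := by
      rw [hui c x, hui c x', hxx']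
    have rP := (abs_re_le_norm _).trans (lip3 hC hρ hη6' hPd' hPb x x' (u c x) (u c x'))
    have rQ := (abs_re_le_norm _).trans (lip3 hC hρ hη6' hQd' hQb x x' (u c x) (u c x'))
    rw [sub_re] at rP rQ
    exact inj_core hxx' h2 rP rQ
  have gmono : ∀ c, StrictMono (fun x => (Gm P Q x (u c x)).1) := by
    intro c
    rcases (gcont c).strictMono_of_inj (ginj c) with hm | hm
    · exact hm
    · exfalso
      have h1 := hm (show (0:ℝ) < 0 + 1 by norm_num)
      have h2 := gshift c 0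
      simp only at h1
      linarith
  have huper : ∀ c x (k : ℤ), u c (x - k) = u c x := by
    intro c x k
    have hper : Function.Periodic (u c) 1 := hup c
    have := hper.sub_zsmul_eq k (x := x)
    rw [zsmul_eq_mul, mul_one] at this
    exact this
  -- the shifted window
  set k : ℤ := ⌊(Gm P Q 0 (u c0 0)).1⌋ - 1 with hk
  have hk1 : 1 ≤ (Gm P Q 0 (u c0 0)).1 - k := by
    have := Int.floor_le (Gm P Q 0 (u c0 0)).1
    rw [hk]
    push_cast
    linarith
  have hk2 : (Gm P Q 0 (u c0 0)).1 - k < 2 := by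
    have := Int.lt_floor_add_one (Gm P Q 0 (u c0 0)).1
    rw [hk]
    push_cast
    linarith
  set Pk : ℂ × ℂ → ℂ := fun p => P (p.1, p.2 + (k : ℂ)) with hPk
  set Qk : ℂ × ℂ → ℂ := fun p => Q (p.1, p.2 + (k : ℂ)) with hQk
  have hkr : ∀ x y : ℝ, ((x : ℂ), ((y : ℂ) + (k : ℂ))) = ((x : ℂ), ((y + k : ℝ) : ℂ)) := by
    intro x y
    push_cast
    rfl
  have hGk : ∀ x y : ℝ, Gm Pk Qk x y = ((Gm P Q x (y + k)).1 - k, (Gm P Q x (y + k)).2 - k) := by
    intro x y
    unfold Gm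
    simp only [hPk, hQk, hkr]
    ext
    · show x + y + _ = x + (y + k) + _ - k
      ring
    · show y + _ = y + k + _ - k
      ring
  have hdP : DifferentiableOn ℂ Pk (WG r) :=
    hPd'.comp (by fun_prop) (fun p hp => WG_sub_Str hrρ k hp)
  have hdQ : DifferentiableOn ℂ Qk (WG r) :=
    hQd'.comp (by fun_prop) (fun p hp => WG_sub_Str hrρ k hp)
  have hHP : Hol Pk (WG r) := by
    refine ⟨hdP, fun p hp => ?_, ?_⟩
    · have h1 := WG_sub_Str hrρ k hp
      exact (hb _ h1.1 h1.2).2.2.1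
    · refine hS Pk r hr0 hdP ?_
      intro x y _ _
      simp only [hPk, hkr]
      exact (hreal x (y + k)).1
  have hHQ : Hol Qk (WG r) := by
    refine ⟨hdQ, fun p hp => ?_, ?_⟩
    · have h1 := WG_sub_Str hrρ k hp
      exact (hb _ h1.1 h1.2).2.2.2
    · refine hS Qk r hr0 hdQ ?_
      intro x y _ _
      simp only [hQk, hkr]
      exact (hreal x (y + k)).2
  have hNI : NI Pk Qk r η := by
    refine ⟨hr0, hr1, hη0, hη6, hHP, hHQ, fun p hp => ?_, fun p hp => ?_, ?_⟩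
    · exact hPb _ (WG_sub_Str hrρ k hp)
    · exact hQb _ (WG_sub_Str hrρ k hp)
    · refine hD Pk Qk r hr0 hHP hHQ ?_
      intro x y _ _
      have e1 : (fun q : ℝ × ℝ => Gm Pk Qk q.1 q.2)
          = fun q : ℝ × ℝ => (fun q' : ℝ × ℝ => Gm P Q q'.1 q'.2) (q + ((0 : ℝ), (k : ℝ)))
            - ((k : ℝ), (k : ℝ)) := by
        funext q
        rw [hGk]
        ext
        · simp
        · simp
      have e2 : fderiv ℝ (fun q : ℝ × ℝ =>
          (fun q' : ℝ × ℝ => Gm P Q q'.1 q'.2) (q + ((0 : ℝ), (k : ℝ)))) (x, y)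
          = fderiv ℝ (fun q' : ℝ × ℝ => Gm P Q q'.1 q'.2) ((x, y) + ((0 : ℝ), (k : ℝ))) :=
        fderiv_comp_add_right (𝕜 := ℝ) (f := fun q' : ℝ × ℝ => Gm P Q q'.1 q'.2) _
      rw [e1, fderiv_sub_const, e2]
      exact hdet _
  have hγ : ∀ c x, |(Gm P Q x (u c x)).1 - k - x - (u c x - k)| ≤ η ∧
      |(u c ((Gm P Q x (u c x)).1 - k) - k) - (u c x - k)| ≤ η := by
    intro c x
    constructor
    · have e : (Gm P Q x (u c x)).1 - k - x - (u c x - k) = (P ((x : ℂ), (u c x : ℂ))).re := by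
        show x + u c x + (P ((x : ℂ), (u c x : ℂ))).re - k - x - (u c x - k) = _
        ring
      rw [e]
      exact hPr _ _
    · rw [huper, ← hui c x]
      have e : (Gm P Q x (u c x)).2 - k - (u c x - k) = (Q ((x : ℂ), (u c x : ℂ))).re := by
        show u c x + (Q ((x : ℂ), (u c x : ℂ))).re - k - (u c x - k) = _
        ring
      rw [e]
      exact hQr _ _
  have hosc : ∀ c x0, 3/16 < u c x0 - k → u c x0 - k < 45/16 →
      ∀ x, 1/8 < u c x - k ∧ u c x - k < 23/8 := by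
    intro c x0 h1 h2 x
    have h3 := hO η (fun x => u c x - k) (fun x => (Gm P Q x (u c x)).1 - k) hη0.le
      (by linarith) ((huc c).sub continuous_const) (fun x => by simp only [hup c x])
      (fun a b hab => by
        have h : (Gm P Q a (u c a)).1 < (Gm P Q b (u c b)).1 := gmono c hab
        show (Gm P Q a (u c a)).1 - k < (Gm P Q b (u c b)).1 - k
        linarith)
      (fun x => by
        show (Gm P Q (x + 1) (u c (x + 1))).1 - k = (Gm P Q x (u c x)).1 - k + 1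
        rw [gshift c x]
        ring)
      (fun x _ _ => hγ c x) x0 h1 h2 x
    rw [abs_lt] at h3
    constructor <;> linarith [h3.1, h3.2]
  let ι : Type := {c : ℝ // ∀ x, 1/8 < u c x - k ∧ u c x - k < 23/8}
  let U : ι → ℝ → ℝ := fun c x => u c.1 x - k
  have hPU : ∀ (c : ℝ) (x : ℝ), Gm Pk Qk x (u c x - k)
      = ((Gm P Q x (u c x)).1 - k, (Gm P Q x (u c x)).2 - k) := by
    intro c x
    rw [hGk, sub_add_cancel]
  have hL : Leaves Pk Qk U := by
    refine ⟨fun i => (huc i.1).sub continuous_const, fun i x => ?_, fun i x => i.2 x, ?_, ?_, ?_⟩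
    · show u i.1 (x + 1) - k = u i.1 x - k
      rw [hup]
    · intro x y h1 h2
      obtain ⟨c, hc, -⟩ := hun (x, y + k)
      have hc' : y + k = u c x := hc
      have e : u c x - k = y := by linarith
      exact ⟨⟨c, hosc c x (by rw [e]; exact h1) (by rw [e]; exact h2)⟩, e⟩
    · intro i j x hij x'
      have h1 : u i.1 x - k = u j.1 x - k := hij
      obtain ⟨c, -, hc⟩ := hun (x, u i.1 x)
      have h2 : i.1 = c := hc i.1 rfl
      have h3 : j.1 = c := hc j.1 (show u i.1 x = u j.1 x by linarith)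
      show u i.1 x' - k = u j.1 x' - k
      rw [h2, h3]
    · intro i x
      show (Gm Pk Qk x (u i.1 x - k)).2 = u i.1 (Gm Pk Qk x (u i.1 x - k)).1 - k
      rw [hPU]
      show (Gm P Q x (u i.1 x)).2 - k = u i.1 ((Gm P Q x (u i.1 x)).1 - k) - k
      rw [huper, hui]
  have hc0 : ∀ x, 1/8 < u c0 x - k ∧ u c0 x - k < 23/8 := by
    have h1 := (hγ c0 0).1
    rw [abs_le] at h1
    have h2 : η ≤ 1/10 := by linarith
    exact hosc c0 0 (by linarith [h1.1, h1.2]) (by linarith [h1.1, h1.2])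
  have hfin := hA Pk Qk r η hNI hηA ι U hL ⟨c0, hc0⟩
    (by
      show 1 ≤ (Gm Pk Qk 0 (u c0 0 - k)).1
      rw [hPU]
      exact hk1)
    (by
      show (Gm Pk Qk 0 (u c0 0 - k)).1 ≤ 2
      rw [hPU]
      exact hk2.le)
  have e : u c0 = fun x => U ⟨c0, hc0⟩ x + k := by
    funext x
    show u c0 x = u c0 x - k + k
    ring
  rw [e]
  exact hfin.add analyticOnNhd_const

end Pool.Agent.Helper87.TW
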