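import Pool.Agent.Helper83.TW.Goals2

/-!
# Packet GOsc: order, monotonicity and oscillation of the leaves
-/

set_option autoImplicit false

namespace Pool.Agent.Helper87.TW

open Complex Set Metric Pool.Agent.Helper83.TW

/-- Lipschitz bound on real points from a bound on complex discs. -/
theorem lip (hC : GCau) (f : ℂ → ℂ) (s : Set ℝ) (hs : Convex ℝ s) (B δ : ℝ) (hδ : 0 < δ)
    (h : ∀ t ∈ s, DifferentiableOn ℂ f (ball (t : ℂ) δ) ∧ ∀ z ∈ ball (t : ℂ) δ, ‖f z‖ ≤ B)
    (t : ℝ) (ht : t ∈ s) (t' : ℝ) (ht' : t' ∈ s) :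
    ‖f t' - f t‖ ≤ B / δ * |t' - t| := by
  have h1 : ∀ x ∈ s, HasDerivWithinAt (fun y : ℝ => f (y : ℂ)) (deriv f (x : ℂ)) s x := by
    intro x hx
    have h2 : DifferentiableAt ℂ f (x : ℂ) :=
      (h x hx).1.differentiableAt (ball_mem_nhds _ hδ)
    exact (h2.hasDerivAt.comp_ofReal).hasDerivWithinAt
  have h3 : ∀ x ∈ s, ‖deriv f (x : ℂ)‖ ≤ B / δ := fun x hx =>
    hC.1 f x B δ hδ (h x hx).1 (h x hx).2
  have := Convex.norm_image_sub_le_of_norm_hasDerivWithin_le h1 h3 hs ht ht'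
  simpa [Real.norm_eq_abs] using this

theorem isOpen_WG (ρ : ℝ) : IsOpen (WG ρ) := by
  have h1 : IsOpen {p : ℂ × ℂ | |p.1.im| < ρ} :=
    isOpen_lt (continuous_abs.comp (continuous_im.comp continuous_fst)) continuous_const
  have h2 : IsOpen {p : ℂ × ℂ | 1/16 < p.2.re} :=
    isOpen_lt continuous_const (continuous_re.comp continuous_snd)
  have h3 : IsOpen {p : ℂ × ℂ | p.2.re < 47/16} :=
    isOpen_lt (continuous_re.comp continuous_snd) continuous_const
  have h4 : IsOpen {p : ℂ × ℂ | |p.2.im| < ρ} :=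
    isOpen_lt (continuous_abs.comp (continuous_im.comp continuous_snd)) continuous_const
  exact h1.inter (h2.inter (h3.inter h4))

theorem ball_re_im {t : ℝ} {δ : ℝ} {z : ℂ} (hz : z ∈ ball (t : ℂ) δ) :
    |z.re - t| < δ ∧ |z.im| < δ := by
  rw [mem_ball, dist_eq_norm] at hz
  have h1 := abs_re_le_norm (z - t)
  have h2 := abs_im_le_norm (z - t)
  simp only [sub_re, ofReal_re, sub_im, ofReal_im, sub_zero] at h1 h2
  exact ⟨h1.trans_lt hz, h2.trans_lt hz⟩

/-- Lipschitz bound for a bounded function on `WG ρ`. -/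
theorem lip2 (hC : GCau) {F : ℂ × ℂ → ℂ} {ρ η : ℝ} (hρ0 : 0 < ρ) (hρ1 : ρ ≤ 1/4)
    (hη0 : 0 < η) (hη : 10^6 * η ≤ ρ) (hF : DifferentiableOn ℂ F (WG ρ))
    (hB : ∀ p ∈ WG ρ, ‖F p‖ ≤ η) {x x' Y Y' : ℝ} (hY : 1/8 < Y ∧ Y < 23/8)
    (hY' : 1/8 < Y' ∧ Y' < 23/8) :
    ‖F ((x' : ℂ), (Y' : ℂ)) - F ((x : ℂ), (Y : ℂ))‖ ≤ 1/100000 * (|x' - x| + |Y' - Y|) := by
  have hop := isOpen_WG ρ
  have hX : ‖F ((x' : ℂ), (Y' : ℂ)) - F ((x : ℂ), (Y' : ℂ))‖ ≤ η / (ρ/2) * |x' - x| := by
    refine lip hC (fun z => F (z, (Y' : ℂ))) univ convex_univ η (ρ/2) (by linarith)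
      (fun t _ => ⟨?_, ?_⟩) x (mem_univ _) x' (mem_univ _)
    · refine hF.comp (by fun_prop) ?_
      intro z hz
      have := ball_re_im hz
      refine ⟨?_, ?_, ?_, ?_⟩
      · show |z.im| < ρ
        linarith
      · show 1/16 < ((Y' : ℝ) : ℂ).re
        rw [ofReal_re]
        linarith
      · show ((Y' : ℝ) : ℂ).re < 47/16
        rw [ofReal_re]
        linarith
      · show |((Y' : ℝ) : ℂ).im| < ρ
        rw [ofReal_im, abs_zero]
        exact hρ0
    · intro z hz
      have := ball_re_im hz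
      apply hB
      refine ⟨?_, ?_, ?_, ?_⟩
      · show |z.im| < ρ
        linarith
      · show 1/16 < ((Y' : ℝ) : ℂ).re
        rw [ofReal_re]
        linarith
      · show ((Y' : ℝ) : ℂ).re < 47/16
        rw [ofReal_re]
        linarith
      · show |((Y' : ℝ) : ℂ).im| < ρ
        rw [ofReal_im, abs_zero]
        exact hρ0
  have hYY : ‖F ((x : ℂ), (Y' : ℂ)) - F ((x : ℂ), (Y : ℂ))‖ ≤ η / (ρ/4) * |Y' - Y| := by
    have hmem : ∀ t ∈ Ioo (1/8 : ℝ) (23/8), ∀ z ∈ ball (t : ℂ) (ρ/4), ((x : ℂ), z) ∈ WG ρ := by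
      intro t ht z hz
      have h1 := ball_re_im hz
      have h2 := abs_lt.1 h1.1
      have h3 := ht.1
      have h4 := ht.2
      refine ⟨?_, ?_, ?_, ?_⟩
      · show |((x : ℝ) : ℂ).im| < ρ
        rw [ofReal_im, abs_zero]
        exact hρ0
      · show 1/16 < z.re
        linarith
      · show z.re < 47/16
        linarith
      · show |z.im| < ρ
        linarith
    refine lip hC (fun z => F ((x : ℂ), z)) (Ioo (1/8) (23/8)) (convex_Ioo _ _) η (ρ/4)
      (by linarith) (fun t ht => ⟨?_, ?_⟩) Y hY Y' hY'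
    · exact hF.comp (by fun_prop) (fun z hz => hmem t ht z hz)
    · intro z hz
      exact hB _ (hmem t ht z hz)
  have e1 : η / (ρ/2) ≤ 1/100000 := by
    rw [div_le_iff₀ (by linarith)]
    linarith
  have e2 : η / (ρ/4) ≤ 1/100000 := by
    rw [div_le_iff₀ (by linarith)]
    linarith
  have h5 : ‖F ((x' : ℂ), (Y' : ℂ)) - F ((x : ℂ), (Y : ℂ))‖ ≤
      ‖F ((x' : ℂ), (Y' : ℂ)) - F ((x : ℂ), (Y' : ℂ))‖
        + ‖F ((x : ℂ), (Y' : ℂ)) - F ((x : ℂ), (Y : ℂ))‖ := by
    have := norm_add_le (F ((x' : ℂ), (Y' : ℂ)) - F ((x : ℂ), (Y' : ℂ)))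
      (F ((x : ℂ), (Y' : ℂ)) - F ((x : ℂ), (Y : ℂ)))
    rwa [sub_add_sub_cancel] at this
  have h6 := mul_le_mul_of_nonneg_right e1 (abs_nonneg (x' - x))
  have h7 := mul_le_mul_of_nonneg_right e2 (abs_nonneg (Y' - Y))
  linarith

theorem WG_real {ρ x Y : ℝ} (hρ : 0 < ρ) (h1 : 1/16 < Y) (h2 : Y < 47/16) :
    ((x : ℂ), (Y : ℂ)) ∈ WG ρ := by
  refine ⟨?_, ?_, ?_, ?_⟩
  · show |((x : ℝ) : ℂ).im| < ρ
    rw [ofReal_im, abs_zero]
    exact hρ
  · show 1/16 < ((Y : ℝ) : ℂ).re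
    rwa [ofReal_re]
  · show ((Y : ℝ) : ℂ).re < 47/16
    rwa [ofReal_re]
  · show |((Y : ℝ) : ℂ).im| < ρ
    rw [ofReal_im, abs_zero]
    exact hρ

theorem gOsc (hC : GCau) : GOsc := by
  intro P Q ρ η h ι U hU
  have hρ0 := h.hρ0
  have hρ1 := h.hρ1
  have hη0 := h.hη0
  have hη := h.hη
  have hη1 : η ≤ 1/4000000 := by linarith
  have hmem : ∀ i (x : ℝ), ((x : ℂ), (U i x : ℂ)) ∈ WG ρ := fun i x =>
    WG_real hρ0 (by linarith [(hU.inside i x).1]) (by linarith [(hU.inside i x).2])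
  have hcont : ∀ i, Continuous (fun x => (Gm P Q x (U i x)).1) := by
    intro i
    have h1 : Continuous (fun x : ℝ => P ((x : ℂ), (U i x : ℂ))) := by
      refine h.hP.diff.continuousOn.comp_continuous ?_ (hmem i)
      exact continuous_ofReal.prodMk (continuous_ofReal.comp (hU.cont i))
    exact (continuous_id.add (hU.cont i)).add (continuous_re.comp h1)
  have hshift : ∀ i x, (Gm P Q (x + 1) (U i (x + 1))).1 = (Gm P Q x (U i x)).1 + 1 := by
    intro i x
    have h1 := h.hP.per _ (hmem i x)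
    unfold Gm
    show x + 1 + U i (x + 1) + (P (((x + 1 : ℝ) : ℂ), ((U i (x + 1) : ℝ) : ℂ))).re
      = x + U i x + (P ((x : ℂ), (U i x : ℂ))).re + 1
    rw [hU.per i x]
    have h2 : (((x + 1 : ℝ) : ℂ), ((U i x : ℝ) : ℂ)) = ((x : ℂ) + 1, (U i x : ℂ)) := by
      push_cast
      rfl
    rw [h2, h1]
    ring
  have hPr : ∀ i (x : ℝ), |(P ((x : ℂ), (U i x : ℂ))).re| ≤ η := fun i x =>
    (abs_re_le_norm _).trans (h.bP _ (hmem i x))
  have hQr : ∀ i (x : ℝ), |(Q ((x : ℂ), (U i x : ℂ))).re| ≤ η := fun i x =>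
    (abs_re_le_norm _).trans (h.bQ _ (hmem i x))
  have hinj : ∀ i, Function.Injective (fun x => (Gm P Q x (U i x)).1) := by
    intro i x x' hxx
    have hxx' : (Gm P Q x (U i x)).1 = (Gm P Q x' (U i x')).1 := hxx
    have h2 : (Gm P Q x (U i x)).2 = (Gm P Q x' (U i x')).2 := by
      rw [hU.inv i x, hU.inv i x', hxx']
    have lP := lip2 hC hρ0 hρ1 hη0 hη h.hP.diff h.bP (x := x) (x' := x') (hU.inside i x)
      (hU.inside i x')
    have lQ := lip2 hC hρ0 hρ1 hη0 hη h.hQ.diff h.bQ (x := x) (x' := x') (hU.inside i x)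
      (hU.inside i x')
    have rP := (abs_re_le_norm _).trans lP
    have rQ := (abs_re_le_norm _).trans lQ
    rw [sub_re] at rP rQ
    unfold Gm at hxx' h2
    change x + U i x + (P ((x : ℂ), (U i x : ℂ))).re
      = x' + U i x' + (P ((x' : ℂ), (U i x' : ℂ))).re at hxx'
    change U i x + (Q ((x : ℂ), (U i x : ℂ))).re
      = U i x' + (Q ((x' : ℂ), (U i x' : ℂ))).re at h2
    have hY : |U i x' - U i x| ≤ 1/100000 * (|x' - x| + |U i x' - U i x|) := by
      have e : U i x' - U i x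
        = -((Q ((x' : ℂ), (U i x' : ℂ))).re - (Q ((x : ℂ), (U i x : ℂ))).re) := by linarith
      calc |U i x' - U i x| = |(Q ((x' : ℂ), (U i x' : ℂ))).re - (Q ((x : ℂ), (U i x : ℂ))).re| := by
            rw [e, abs_neg]
        _ ≤ _ := rQ
    have hX : |x' - x| ≤ |U i x' - U i x| + 1/100000 * (|x' - x| + |U i x' - U i x|) := by
      have e : x' - x = -((U i x' - U i x)
        + ((P ((x' : ℂ), (U i x' : ℂ))).re - (P ((x : ℂ), (U i x : ℂ))).re)) := by linarith
      calc |x' - x| = |(U i x' - U i x)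
        + ((P ((x' : ℂ), (U i x' : ℂ))).re - (P ((x : ℂ), (U i x : ℂ))).re)| := by
            rw [e, abs_neg]
        _ ≤ |U i x' - U i x|
          + |(P ((x' : ℂ), (U i x' : ℂ))).re - (P ((x : ℂ), (U i x : ℂ))).re| := abs_add_le _ _
        _ ≤ _ := by linarith
    have h0 : |x' - x| = 0 := le_antisymm (by linarith [abs_nonneg (U i x' - U i x)])
      (abs_nonneg _)
    exact (sub_eq_zero.1 (abs_eq_zero.1 h0)).symm
  have hmono : ∀ i, StrictMono (fun x => (Gm P Q x (U i x)).1) := by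
    intro i
    rcases (hcont i).strictMono_of_inj (hinj i) with hm | hm
    · exact hm
    · exfalso
      have h1 := hm (show (0:ℝ) < 0 + 1 by norm_num)
      have h2 := hshift i 0
      simp only at h1
      linarith
  have hord : ∀ i j x, U i x < U j x → ∀ x', U i x' < U j x' := by
    intro i j x hx x'
    by_contra hcon
    push Not at hcon
    have hc : Continuous (fun y => U j y - U i y) := (hU.cont j).sub (hU.cont i)
    obtain ⟨c, hc0⟩ := mem_range_of_exists_le_of_exists_ge hc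
      (c := 0) ⟨x', by simpa using hcon⟩ ⟨x, by simpa using hx.le⟩
    have h1 : U i c = U j c := by
      simp only at hc0
      linarith
    have := hU.disj i j c h1 x
    linarith
  have hstep : ∀ i x (k : ℕ), |U i ((fun x => (Gm P Q x (U i x)).1)^[k] x) - U i x| ≤ k * η ∧
      |(fun x => (Gm P Q x (U i x)).1)^[k] x - (x + k * U i x)| ≤ (k^2 + k) * η := by
    intro i x k
    induction k with
    | zero => simp
    | succ k ih =>
      rw [Function.iterate_succ_apply']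
      set a := (fun x => (Gm P Q x (U i x)).1)^[k] x with ha
      obtain ⟨ih1, ih2⟩ := ih
      have e1 : U i ((Gm P Q a (U i a)).1) = U i a + (Q ((a : ℂ), (U i a : ℂ))).re :=
        (hU.inv i a).symm
      have e2 : (Gm P Q a (U i a)).1 = a + U i a + (P ((a : ℂ), (U i a : ℂ))).re := rfl
      have b1 := hPr i a
      have b2 := hQr i a
      rw [abs_le] at ih1 ih2 b1 b2
      constructor
      · rw [e1, abs_le]
        push_cast
        constructor <;> linarith [ih1.1, ih1.2, b2.1, b2.2]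
      · rw [e2, abs_le]
        push_cast
        constructor <;> nlinarith [ih1.1, ih1.2, b1.1, b1.2, ih2.1, ih2.2]
  have hosc1 : ∀ i x0 x1, U i x1 - U i x0 ≤ 1/100 := by
    intro i x0 x1'
    by_contra hcon
    push Not at hcon
    have hper : Function.Periodic (U i) 1 := hU.per i
    set x1 : ℝ := x1' - ⌊x1' - x0⌋ with hx1
    have hUx1 : U i x1 = U i x1' := by
      have := hper.sub_zsmul_eq ⌊x1' - x0⌋ (x := x1')
      rw [zsmul_eq_mul, mul_one] at this
      exact this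
    have hx0 : x0 ≤ x1 := by
      have := Int.floor_le (x1' - x0)
      rw [hx1]
      linarith
    have hx2 : x1 ≤ x0 + 1 := by
      have := Int.lt_floor_add_one (x1' - x0)
      rw [hx1]
      linarith
    rw [← hUx1] at hcon
    have k0 := (hstep i x0 200).2
    have k1 := (hstep i x1 200).2
    have hm : (fun x => (Gm P Q x (U i x)).1)^[200] x1
        ≤ (fun x => (Gm P Q x (U i x)).1)^[200] (x0 + 1) :=
      ((hmono i).monotone.iterate 200) hx2
    have hs : ∀ k : ℕ, (fun x => (Gm P Q x (U i x)).1)^[k] (x0 + 1)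
        = (fun x => (Gm P Q x (U i x)).1)^[k] x0 + 1 := by
      intro k
      induction k with
      | zero => simp
      | succ k ih =>
        rw [Function.iterate_succ_apply', Function.iterate_succ_apply', ih]
        exact hshift i _
    rw [hs 200] at hm
    rw [abs_le] at k0 k1
    push_cast at k0 k1
    linarith [k0.1, k0.2, k1.1, k1.2]
  refine ⟨?_, hmono, hcont, hshift, hord⟩
  intro i x x'
  rw [abs_le]
  constructor
  · linarith [hosc1 i x x']
  · exact hosc1 i x' x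

end Pool.Agent.Helper87.TW
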